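import Pool.Agent.Helper6.NX.GoalsC

/-!
# Packet NX-C (MP_75608d_al)
-/

namespace Pool.Agent.Helper48.NX

open Equiv Filter Topology Pool.Agent.Helper15.An
open Pool.Agent.Helper3.AK (lazyLaw)
open Pool.Agent.Helper6.NX

theorem lazyLaw_nonneg {n k : ℕ} (x : Fin k → Alt n) (m : ℕ) (g : Perm (Fin n)) :
    0 ≤ lazyLaw x m g := by
  induction m generalizing g with
  | zero =>
    unfold lazyLaw
    split_ifs <;> norm_num
  | succ m ih =>
    unfold lazyLaw
    have : 0 ≤ ∑ i, (lazyLaw x m (g * (x i : Perm (Fin n))⁻¹) +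
        lazyLaw x m (g * (x i : Perm (Fin n)))) :=
      Finset.sum_nonneg (fun i _ => add_nonneg (ih _) (ih _))
    have h2 : 0 ≤ (4 * (k : ℝ))⁻¹ := by positivity
    have h3 := ih g
    have h4 := mul_nonneg h2 this
    linarith

/-- the permutation of the tuples by a permutation -/
def tr {n f : ℕ} (w : Perm (Fin n)) : Perm (Fin f ↪ Fin n) where
  toFun b := b.trans w.toEmbedding
  invFun b := b.trans (w⁻¹ : Perm (Fin n)).toEmbedding
  left_inv b := by
    ext i
    simp
  right_inv b := by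
    ext i
    simp

theorem cost {n k f : ℕ} (hk : 1 ≤ k) (x : Fin k → Alt n) (q : (Fin f ↪ Fin n) → ℝ) (e : ℝ)
    (hq : NIT x q e) (m : ℕ) (w : Perm (Fin n)) (hw : 0 < lazyLaw x m w) :
    ∑ b : Fin f ↪ Fin n, |q (b.trans ((w⁻¹ : Perm (Fin n)).toEmbedding)) - q b| ≤ m * e := by
  have he : 0 ≤ e :=
    (Finset.sum_nonneg (fun b _ => abs_nonneg _)).trans (hq ⟨0, by omega⟩)
  induction m generalizing w with
  | zero =>
    unfold lazyLaw at hw
    have h1 : w = 1 := by
      by_contra h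
      rw [if_neg h] at hw
      exact lt_irrefl _ hw
    subst h1
    have : ∀ b : Fin f ↪ Fin n, b.trans (((1 : Perm (Fin n))⁻¹ : Perm (Fin n)).toEmbedding) = b := by
      intro b
      ext i
      simp
    have h2 : ∀ b : Fin f ↪ Fin n,
        |q (b.trans (((1 : Perm (Fin n))⁻¹ : Perm (Fin n)).toEmbedding)) - q b| = 0 := by
      intro b
      rw [this b, sub_self, abs_zero]
    rw [Finset.sum_congr rfl (fun b _ => h2 b)]
    simp
  | succ m ih =>
    have step : ∀ u : Perm (Fin n), 0 < lazyLaw x m u → ∀ v : Perm (Fin n), w⁻¹ = v * u⁻¹ →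
        ∑ b : Fin f ↪ Fin n, |q (b.trans v.toEmbedding) - q b| ≤ e →
        ∑ b : Fin f ↪ Fin n, |q (b.trans ((w⁻¹ : Perm (Fin n)).toEmbedding)) - q b| ≤
          ((m + 1 : ℕ) : ℝ) * e := by
      intro u hu v hv hb
      have e1 : ∀ b : Fin f ↪ Fin n, b.trans ((w⁻¹ : Perm (Fin n)).toEmbedding) =
          (b.trans ((u⁻¹ : Perm (Fin n)).toEmbedding)).trans v.toEmbedding := by
        intro b
        ext i
        simp [hv]
      have e2 : ∑ b : Fin f ↪ Fin n,
          |q ((b.trans ((u⁻¹ : Perm (Fin n)).toEmbedding)).trans v.toEmbedding) -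
            q (b.trans ((u⁻¹ : Perm (Fin n)).toEmbedding))| =
          ∑ b : Fin f ↪ Fin n, |q (b.trans v.toEmbedding) - q b| :=
        Equiv.sum_comp (tr (u⁻¹ : Perm (Fin n)))
          (fun b => |q (b.trans v.toEmbedding) - q b|)
      have e3 := ih u hu
      calc ∑ b : Fin f ↪ Fin n, |q (b.trans ((w⁻¹ : Perm (Fin n)).toEmbedding)) - q b|
          ≤ ∑ b : Fin f ↪ Fin n,
            (|q ((b.trans ((u⁻¹ : Perm (Fin n)).toEmbedding)).trans v.toEmbedding) -
              q (b.trans ((u⁻¹ : Perm (Fin n)).toEmbedding))| +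
              |q (b.trans ((u⁻¹ : Perm (Fin n)).toEmbedding)) - q b|) := by
            refine Finset.sum_le_sum (fun b _ => ?_)
            rw [e1 b]
            exact abs_sub_le _ _ _
        _ ≤ e + m * e := by
            rw [Finset.sum_add_distrib, e2]
            exact add_le_add hb e3
        _ = ((m + 1 : ℕ) : ℝ) * e := by push_cast; ring
    by_cases h0 : 0 < lazyLaw x m w
    · have := ih w h0
      have h2 : (m : ℝ) * e ≤ ((m + 1 : ℕ) : ℝ) * e := by
        push_cast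
        linarith
      exact this.trans h2
    · have h0' : lazyLaw x m w = 0 := le_antisymm (not_lt.1 h0) (lazyLaw_nonneg x m w)
      have h3 : 0 < ∑ i, (lazyLaw x m (w * (x i : Perm (Fin n))⁻¹) +
          lazyLaw x m (w * (x i : Perm (Fin n)))) := by
        by_contra hc
        have h4 : ∑ i, (lazyLaw x m (w * (x i : Perm (Fin n))⁻¹) +
          lazyLaw x m (w * (x i : Perm (Fin n)))) ≤ 0 := not_lt.1 hc
        have h5 : lazyLaw x (m + 1) w = (1 / 2) * lazyLaw x m w + (4 * (k : ℝ))⁻¹ *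
          ∑ i, (lazyLaw x m (w * (x i : Perm (Fin n))⁻¹) +
            lazyLaw x m (w * (x i : Perm (Fin n)))) := rfl
        rw [h5, h0'] at hw
        have h6 : 0 ≤ (4 * (k : ℝ))⁻¹ := by positivity
        have h7 := mul_nonpos_of_nonneg_of_nonpos h6 h4
        linarith
      obtain ⟨i, -, hi⟩ : ∃ i ∈ Finset.univ, 0 < lazyLaw x m (w * (x i : Perm (Fin n))⁻¹) +
          lazyLaw x m (w * (x i : Perm (Fin n))) := by
        by_contra hc
        push Not at hc
        exact absurd h3 (not_lt.2 (Finset.sum_nonpos hc))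
      by_cases h7 : 0 < lazyLaw x m (w * (x i : Perm (Fin n))⁻¹)
      · refine step _ h7 ((x i : Perm (Fin n))⁻¹) ?_ (hq i)
        group
      · have h8 : 0 < lazyLaw x m (w * (x i : Perm (Fin n))) := by
          have := not_lt.1 h7
          linarith
        refine step _ h8 (x i : Perm (Fin n)) ?_ ?_
        · group
        · have e4 : ∑ b : Fin f ↪ Fin n,
              |q (b.trans (((x i : Perm (Fin n))⁻¹ : Perm (Fin n)).toEmbedding)) - q b| =
              ∑ b : Fin f ↪ Fin n, |q (b.trans (x i : Perm (Fin n)).toEmbedding) - q b| := by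
            rw [← Equiv.sum_comp (tr (x i : Perm (Fin n)))]
            refine Finset.sum_congr rfl (fun b _ => ?_)
            have e5 : (tr (x i : Perm (Fin n)) b).trans
                (((x i : Perm (Fin n))⁻¹ : Perm (Fin n)).toEmbedding) = b :=
              (tr (x i : Perm (Fin n))).left_inv b
            rw [e5, abs_sub_comm]
            rfl
          rw [← e4]
          exact hq i


/-- packet C -/
theorem thmC (hc1 : S_C1) (hc2 : S_C2) (hc3 : S_C3) (hww : S_WW) : S_C := by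
  intro k γ γ' α ε c₀ hk hγ hγ' hγ1 hγ'1 hε hε1 hα hα1 hc0 hc01
  have ev : ∀ (a C : ℝ), 0 < a → ∀ᶠ n : ℕ in atTop, C ≤ (n : ℝ) ^ a := fun a C ha =>
    ((tendsto_rpow_atTop ha).comp tendsto_natCast_atTop_atTop).eventually_ge_atTop C
  filter_upwards [hww k α ε (γ / 8) hk hα hα1 hε hε1 (by positivity) (by linarith),
    ev (3 * γ / 4 + γ') 8 (by positivity), ev γ' (16 * k * Real.log (8 / c₀)) hγ',
    eventually_ge_atTop 1] with n hW h1 h2 hn x hgap hlarge f hf hfn q hq hnit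
  obtain ⟨w1, -, w3, -, -⟩ := hW x hgap
  have hn' : (1 : ℝ) ≤ n := by exact_mod_cast hn
  have hn0 : (0 : ℝ) < n := by linarith
  have hf0 : (0 : ℝ) < f := lt_of_lt_of_le (Real.rpow_pos_of_pos hn0 _) hfn
  have hfn' : (f : ℝ) ≤ n := by exact_mod_cast hf
  set l : ℕ := ⌈(n : ℝ) ^ (2 * (γ / 8))⌉₊ with hl
  set e : ℝ := (n : ℝ) ^ (-(γ + 2 * γ')) with he
  have he0 : 0 < e := Real.rpow_pos_of_pos hn0 _
  set L : ℝ := Real.log (8 / c₀) with hL
  have hL2 : 2 ≤ L := by
    have h8 : (8 : ℝ) ≤ 8 / c₀ := by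
      rw [le_div_iff₀ hc0]
      linarith
    have h9 : Real.log 8 ≤ L := Real.log_le_log (by norm_num) h8
    have h10 : Real.log 8 = 3 * Real.log 2 := by
      rw [show (8 : ℝ) = 2 ^ 3 by norm_num, Real.log_pow]
      norm_num
    have := Real.log_two_gt_d9
    linarith
  -- the cost of the lazy walk
  have hl2 : (l : ℝ) ≤ 2 * (n : ℝ) ^ (γ / 4) := by
    have a1 : (1 : ℝ) ≤ (n : ℝ) ^ (γ / 4) := Real.one_le_rpow hn' (by positivity)
    have a2 : 2 * (γ / 8) = γ / 4 := by ring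
    rw [hl, a2]
    have := Nat.ceil_lt_add_one (show (0 : ℝ) ≤ (n : ℝ) ^ (γ / 4) by positivity)
    linarith
  have hth : (l : ℝ) * e ≤ f / (4 * n) := by
    have b1 : (n : ℝ) ^ (-γ') ≤ f / n := by
      rw [le_div_iff₀ hn0]
      calc (n : ℝ) ^ (-γ') * n = (n : ℝ) ^ (-γ') * (n : ℝ) ^ (1 : ℝ) := by rw [Real.rpow_one]
        _ = (n : ℝ) ^ (1 - γ') := by rw [← Real.rpow_add hn0]; congr 1; ring
        _ ≤ f := hfn
    have b2 : (n : ℝ) ^ (γ / 4) * e * (n : ℝ) ^ (3 * γ / 4 + γ') = (n : ℝ) ^ (-γ') := by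
      rw [he, ← Real.rpow_add hn0, ← Real.rpow_add hn0]
      congr 1
      ring
    have b3 : 0 < (n : ℝ) ^ (γ / 4) * e := by positivity
    have b4 : 8 * ((n : ℝ) ^ (γ / 4) * e) ≤ (n : ℝ) ^ (-γ') := by
      rw [← b2]
      nlinarith [mul_le_mul_of_nonneg_left h1 b3.le]
    have b5 : (l : ℝ) * e ≤ 2 * (n : ℝ) ^ (γ / 4) * e := mul_le_mul_of_nonneg_right hl2 he0.le
    have b6 : (f : ℝ) / (4 * n) = f / n / 4 := by
      rw [div_div]
      congr 1
      ring
    rw [b6]
    linarith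
  have hcov := hc1 n f q (lazyLaw x l) ((l : ℝ) * e) hn hq ⟨w1.nonneg, w1.sum⟩ w3
    (fun w hw => cost hk x q e hnit l w hw) hth
  -- the number of copies
  set M : ℕ := ⌈4 * n / f * L⌉₊ with hM
  have hA : 1 ≤ 4 * (n : ℝ) / f * L := by
    have : 1 ≤ (n : ℝ) / f := by
      rw [le_div_iff₀ hf0]
      linarith
    have h5 : 4 * (n : ℝ) / f = 4 * (n / f) := by ring
    rw [h5]
    nlinarith
  have hM1 : 4 * (n : ℝ) / f * L ≤ M := Nat.le_ceil _
  have hM2 : (M : ℝ) ≤ 8 * (n : ℝ) / f * L := by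
    have := Nat.ceil_lt_add_one (show (0 : ℝ) ≤ 4 * (n : ℝ) / f * L by linarith)
    rw [← hM] at this
    have h6 : 8 * (n : ℝ) / f * L = 2 * (4 * (n : ℝ) / f * L) := by ring
    rw [h6]
    linarith
  have hMpos : 1 ≤ M := by
    have : (1 : ℝ) ≤ M := hA.trans hM1
    exact_mod_cast this
  obtain ⟨m, hm⟩ : ∃ m, M = m + 1 := ⟨M - 1, by omega⟩
  have hmM : (m : ℝ) + 1 = M := by
    rw [hm]
    push_cast
    ring
  obtain ⟨x1, x2, x3⟩ := hc3 n k f m hf x q e hn hq hnit hcov
  have hlogn : 0 ≤ Real.log n := Real.log_nonneg hn'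
  have hH0 : 0 ≤ c₀ * n * Real.log n := by positivity
  have hk2 : 2 * (k : ℝ) * (m + 1) * e ≤ (n : ℝ) ^ (-γ) := by
    rw [hmM]
    have c1 : (n : ℝ) / f ≤ (n : ℝ) ^ γ' := by
      rw [div_le_iff₀ hf0]
      calc (n : ℝ) = (n : ℝ) ^ γ' * (n : ℝ) ^ (1 - γ') := by
            rw [← Real.rpow_add hn0]
            have : γ' + (1 - γ') = 1 := by ring
            rw [this, Real.rpow_one]
        _ ≤ (n : ℝ) ^ γ' * f := by
            apply mul_le_mul_of_nonneg_left hfn
            positivity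
    have c2 : (M : ℝ) ≤ 8 * (n : ℝ) ^ γ' * L := by
      refine hM2.trans ?_
      have : 8 * (n : ℝ) / f * L = (n / f) * (8 * L) := by ring
      rw [this]
      have := mul_le_mul_of_nonneg_right c1 (show 0 ≤ 8 * L by linarith)
      linarith
    have c3 : (n : ℝ) ^ γ' * ((n : ℝ) ^ γ' * e) = (n : ℝ) ^ (-γ) := by
      rw [he, ← Real.rpow_add hn0, ← Real.rpow_add hn0]
      congr 1
      ring
    have c4 : 0 ≤ (n : ℝ) ^ γ' * e := by positivity
    have hk0 : (0 : ℝ) ≤ 2 * k * e := by positivity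
    calc 2 * (k : ℝ) * M * e = (2 * k * e) * M := by ring
      _ ≤ (2 * k * e) * (8 * (n : ℝ) ^ γ' * L) := mul_le_mul_of_nonneg_left c2 hk0
      _ = (16 * k * L) * ((n : ℝ) ^ γ' * e) := by ring
      _ ≤ (n : ℝ) ^ γ' * ((n : ℝ) ^ γ' * e) := mul_le_mul_of_nonneg_right h2 c4
      _ = (n : ℝ) ^ (-γ) := c3
  have y := hc2 (Perm (Fin n)) k m (cX x) (xlaw hf q) e ((n : ℝ) ^ (-γ))
    (c₀ * n * Real.log n) hk he0 x1 x2 hk2 hH0 hlarge
  have z : c₀ * n * Real.log n / 2 ≤
      (m + 1) * H q + n * Real.exp (-((m + 1) * f / (4 * n))) * Real.log n := y.trans x3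
  have hexp : Real.exp (-(((m : ℝ) + 1) * f / (4 * n))) ≤ c₀ / 8 := by
    have d1 : L ≤ ((m : ℝ) + 1) * f / (4 * n) := by
      rw [le_div_iff₀ (by positivity), hmM]
      have : 4 * (n : ℝ) / f * L * f = L * (4 * n) := by
        field_simp
      rw [← this]
      exact mul_le_mul_of_nonneg_right hM1 hf0.le
    calc Real.exp (-(((m : ℝ) + 1) * f / (4 * n))) ≤ Real.exp (-L) :=
          Real.exp_le_exp.2 (neg_le_neg d1)
      _ = c₀ / 8 := by
          rw [hL, ← Real.log_inv, Real.exp_log (by positivity), inv_div]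
  have z2 : 3 / 8 * c₀ * n * Real.log n ≤ M * H q := by
    have : (n : ℝ) * Real.exp (-(((m : ℝ) + 1) * f / (4 * n))) * Real.log n ≤
        n * (c₀ / 8) * Real.log n := by gcongr
    rw [hmM] at z this
    linarith
  have hnl : 0 ≤ 3 / 8 * c₀ * n * Real.log n := by positivity
  have hHq : 0 ≤ H q := by
    by_contra hc
    have h7 : H q < 0 := not_le.1 hc
    have h8 : (0 : ℝ) < M := by
      have : (1 : ℝ) ≤ M := by exact_mod_cast hMpos
      linarith
    nlinarith
  have z3 : 3 / 8 * c₀ * n * Real.log n ≤ 8 * (n : ℝ) / f * L * H q :=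
    z2.trans (mul_le_mul_of_nonneg_right hM2 hHq)
  have z4 : 3 * c₀ / (64 * L) * f * Real.log n =
      (3 / 8 * c₀ * n * Real.log n) * (f / (8 * n * L)) := by
    field_simp
    ring
  rw [z4]
  calc (3 / 8 * c₀ * n * Real.log n) * (f / (8 * n * L))
      ≤ (8 * (n : ℝ) / f * L * H q) * (f / (8 * n * L)) := by
        apply mul_le_mul_of_nonneg_right z3
        positivity
    _ = H q := by
        field_simp

end Pool.Agent.Helper48.NX
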